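import Mathlib
import Pool.Agent.H21.FPPDefs

namespace Pool.Agent.Results.MP_12ef09_al.Counter

open Pool.Agent.H21.FPP

abbrev V := Multiplicative (ℕ → Fin 2)

def A (g : V) (w : List (Fin 2)) : List (Fin 2) := w.mapIdx fun i a => a + g.toAdd i

lemma A_mul (g h : V) (w : List (Fin 2)) : A (g * h) w = A g (A h w) := by
  apply List.ext_getElem <;> simp [A, add_assoc, add_comm]

lemma A_one (w : List (Fin 2)) : A 1 w = w := by
  apply List.ext_getElem <;> simp [A]

lemma A_pre (g : V) {v w : List (Fin 2)} (h : v <+: w) : A g v <+: A g w := by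
  obtain ⟨t, rfl⟩ := h
  simp [A, List.mapIdx_append]

def φ : V →* autT 2 := MonoidHom.mk' (fun g => ⟨⟨A g, A g⁻¹,
    fun w => by rw [← A_mul, inv_mul_cancel, A_one], fun w => by rw [← A_mul, mul_inv_cancel, A_one]⟩,
    fun w => by simp [A], fun v w => ⟨A_pre g, fun h => by
      simpa [← A_mul, A_one] using A_pre g⁻¹ h⟩⟩)
  fun g h => Subtype.ext (Equiv.ext (A_mul g h))

lemma eq_iff (g h : V) (n : ℕ) (v : {v : List (Fin 2) // v.length = n}) :
    lev 2 n (φ g) v = lev 2 n (φ h) v ↔ ∀ i < n, g.toAdd i = h.toAdd i := by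
  obtain ⟨v, rfl⟩ := v
  rw [Subtype.ext_iff, lev_apply, lev_apply]
  show A g v = A h v ↔ _
  simp [A, List.ext_getElem_iff]

lemma lev_eq_iff (g h : V) (n : ℕ) :
    lev 2 n (φ g) = lev 2 n (φ h) ↔ ∀ i < n, g.toAdd i = h.toAdd i :=
  ⟨fun e => (eq_iff g h n ⟨List.replicate n 0, by simp⟩).1 (by rw [e]),
    fun e => Equiv.ext fun v => (eq_iff g h n v).2 e⟩

lemma prop_eq (K : Subgroup V) (n : ℕ) :
    prop (K.map φ) n = 1 / Nat.card ((K.map φ).map (lev 2 n)) := by
  rw [prop, Nat.card_eq_one_iff_exists.2 ⟨⟨1, ⟨List.replicate n 0, by simp⟩, rfl⟩, ?_⟩, Nat.cast_one]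
  rintro ⟨⟨_, _, ⟨g, hg, rfl⟩, rfl⟩, v, hv⟩
  refine Subtype.ext (Subtype.ext ?_)
  have := (lev_eq_iff g 1 n).2 ((eq_iff g 1 n v).1 (by simpa using hv))
  simpa using this

theorem result : ∃ G : Subgroup (autT 2), IsClosedSub G ∧ HasFPP G 0 ∧
    ∀ (n : ℕ) (g : Fin n → autT 2), (∀ i, g i ∈ G) →
      ∃ α : ℝ, 0 < α ∧ HasFPP (Subgroup.closure (Set.range g)) α := by
  refine ⟨(⊤ : Subgroup V).map φ, fun g hg => ?_, ?_, fun n g hg => ?_⟩
  · choose h hh e using hg
    choose a _ ha using hh
    have c : ∀ m n, m ≤ n → ∀ i < m, (a m).toAdd i = (a n).toAdd i := by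
      intro m n hmn
      refine (eq_iff (a m) (a n) m ⟨List.replicate m 0, by simp⟩).1 (Subtype.ext ?_)
      rw [ha, e, lev_apply, lev_apply]
      have p : List.replicate m (0 : Fin 2) <+: List.replicate n 0 :=
        ⟨List.replicate (n - m) 0, by rw [List.replicate_append_replicate]; congr 1; omega⟩
      have e' := congrArg (fun f => (f ⟨List.replicate n 0, by simp⟩).1) (e n)
      simp only [lev_apply] at e'
      refine (List.prefix_of_prefix_length_le ((g.2.2 _ _).1 p) ?_ ?_).eq_of_length ?_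
      · rw [← e', ← ha]
        exact ((φ (a n)).2.2 _ _).1 p
      · rw [g.2.1, (φ (a n)).2.1]
      · rw [g.2.1, (φ (a n)).2.1]
    refine ⟨.ofAdd fun i => (a (i + 1)).toAdd i, trivial, Subtype.ext (Equiv.ext fun v => ?_)⟩
    have := (eq_iff (.ofAdd fun i => (a (i + 1)).toAdd i) (a v.length) _ ⟨v, rfl⟩).2
      fun i hi => c _ _ hi i (by omega)
    rw [ha, e] at this
    exact congrArg Subtype.val this
  · refine squeeze_zero (fun n => by rw [prop_eq]; positivity) (fun n => ?_)
      tendsto_one_div_add_atTop_nhds_zero_nat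
    rw [prop_eq]
    refine one_div_le_one_div_of_le (by positivity) ?_
    have := Nat.card_le_card_of_injective (fun k : Fin (n + 1) => (⟨lev 2 n (φ (.ofAdd
      fun i => if i < k then 1 else 0)), _, ⟨_, trivial, rfl⟩, rfl⟩ :
        ((⊤ : Subgroup V).map φ).map (lev 2 n))) fun k l e => by
      have h := (lev_eq_iff _ _ _).1 (Subtype.mk.inj e)
      by_contra hne
      have h1 := h (min k l) (by omega)
      simp only [toAdd_ofAdd] at h1
      split_ifs at h1 <;> first | omega | simp at h1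
    simp only [Nat.card_eq_fintype_card, Fintype.card_fin] at this
    exact_mod_cast this
  · choose a _ ha using hg
    obtain rfl : g = φ ∘ a := funext fun i => (ha i).symm
    rw [Set.range_comp, ← MonoidHom.map_closure]
    set K := Subgroup.closure (Set.range a)
    have : Group.FG K := Group.closure_finite_fg _
    have : Finite K := CommGroup.finite_of_fg_isMulTorsion K fun x =>
      isOfFinOrder_iff_pow_eq_one.2 ⟨2, by norm_num, Subtype.ext (Multiplicative.toAdd.injective
        (funext fun i => by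
          simp only [SubgroupClass.coe_pow, toAdd_pow, Pi.smul_apply, two_nsmul]
          exact (by decide : ∀ c : Fin 2, c + c = 0) _))⟩
    have hN : ∀ x : K, ∃ N, ∀ n ≥ N, lev 2 n (φ x) = 1 → x = 1 := by
      intro x
      by_cases hx : x = 1
      · exact ⟨0, fun _ _ _ => hx⟩
      obtain ⟨i, hi⟩ := Function.ne_iff.1 (fun e => hx (Subtype.ext
        (Multiplicative.toAdd.injective e)) : x.1.toAdd ≠ (1 : V).toAdd)
      exact ⟨i + 1, fun n hn e => absurd ((lev_eq_iff x 1 n).1 (by simpa using e) i hn) hi⟩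
    choose N hN using hN
    obtain ⟨M, hM⟩ := (Set.finite_range N).bddAbove
    refine ⟨1 / Nat.card K, by have := Nat.card_pos (α := K); positivity,
      tendsto_atTop_of_eventually_const (i₀ := M) fun n hn => ?_⟩
    rw [prop_eq, Subgroup.map_map, ← K.range_subtype, MonoidHom.map_range,
      ← Nat.card_congr (MonoidHom.ofInjective ?_).toEquiv]
    · simp
    · exact (injective_iff_map_eq_one _).2 fun x hx => hN x n ((hM ⟨x, rfl⟩).trans hn) hx

end Pool.Agent.Results.MP_12ef09_al.Counter
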